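import Pool.Agent.V5helper99.DC.Defs

set_option autoImplicit false

/-!
# Project DC, job J9: the symmetric group is transitive on the complete chains
-/

namespace DC99

theorem J9_rank {n : ℕ} (C : ℕ → Finset (Fin n)) (hC : IsChainC C) :
    ∃ σ : Equiv.Perm (Fin n), ∀ m, m ≤ n → ∀ i, i ∈ C m ↔ ((σ i : Fin n) : ℕ) < m := by
  classical
  obtain ⟨h1, h2⟩ := hC
  have hn : C n = Finset.univ := by
    rw [← Finset.card_eq_iff_eq_univ, h1 n le_rfl, Fintype.card_fin]
  have h0 : C 0 = ∅ := Finset.card_eq_zero.mp (h1 0 (Nat.zero_le _))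
  have hlast : ∀ i : Fin n, i ∈ C (n - 1 + 1) := fun i => by
    have h3 : n - 1 + 1 = n := by
      have := i.pos
      omega
    rw [h3, hn]
    exact Finset.mem_univ _
  have hex : ∀ i : Fin n, ∃ m, i ∈ C (m + 1) := fun i => ⟨n - 1, hlast i⟩
  obtain ⟨ρ, hρ⟩ : ∃ ρ : Fin n → ℕ, ρ = fun i => Nat.find (hex i) := ⟨_, rfl⟩
  have hρ1 : ∀ i, i ∈ C (ρ i + 1) := fun i => by
    rw [hρ]
    exact Nat.find_spec (hex i)
  have hρmin : ∀ i m, i ∈ C (m + 1) → ρ i ≤ m := fun i m h => by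
    rw [hρ]
    exact Nat.find_min' (hex i) h
  have hρn : ∀ i, ρ i < n := fun i => by
    have h3 := hρmin i (n - 1) (hlast i)
    have := i.pos
    omega
  have hmem : ∀ m, m ≤ n → ∀ i, i ∈ C m ↔ ρ i < m := by
    intro m hm i
    constructor
    · intro hi
      cases m with
      | zero =>
        rw [h0] at hi
        exact absurd hi (Finset.notMem_empty i)
      | succ m => exact Nat.lt_succ_of_le (hρmin i m hi)
    · intro hi
      exact h2 (ρ i + 1) m hi hm (hρ1 i)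
  have hinj : Function.Injective (fun i => (⟨ρ i, hρn i⟩ : Fin n)) := by
    intro i j hij
    have hij' : ρ i = ρ j := congrArg Fin.val hij
    have hsub : C (ρ i) ⊆ C (ρ i + 1) := h2 _ _ (Nat.le_succ _) (hρn i)
    have hcard : (C (ρ i + 1) \ C (ρ i)).card = 1 := by
      rw [Finset.card_sdiff_of_subset hsub, h1 _ (hρn i), h1 _ (hρn i).le]
      omega
    have hi : i ∈ C (ρ i + 1) \ C (ρ i) := Finset.mem_sdiff.mpr
      ⟨hρ1 i, fun h => lt_irrefl _ ((hmem _ (hρn i).le i).mp h)⟩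
    have hj : j ∈ C (ρ i + 1) \ C (ρ i) := by
      rw [hij']
      exact Finset.mem_sdiff.mpr ⟨hρ1 j, fun h => lt_irrefl _ ((hmem _ (hρn j).le j).mp h)⟩
    exact Finset.card_le_one.mp hcard.le i hi j hj
  exact ⟨Equiv.ofBijective _ (Finite.injective_iff_bijective.mp hinj), fun m hm i => hmem m hm i⟩

theorem t_J9 {n : ℕ} (C C' : ℕ → Finset (Fin n)) (hC : IsChainC C) (hC' : IsChainC C') :
    ∃ τ : Equiv.Perm (Fin n), ∀ m, m ≤ n → (C m).map τ.toEmbedding = C' m := by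
  obtain ⟨σ, hσ⟩ := J9_rank C hC
  obtain ⟨σ', hσ'⟩ := J9_rank C' hC'
  refine ⟨σ.trans σ'.symm, fun m hm => ?_⟩
  ext j
  rw [Finset.mem_map_equiv, hσ m hm, hσ' m hm]
  simp

end DC99
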